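import Pool.Agent.H294Z.Lp.Key

set_option autoImplicit false

open Set Topology Filter

namespace Pool.Agent.H294Z.Lp

open Pool.Agent.Helper47.LP

theorem exists_bump {X : Type} [TopologicalSpace X] [T35Space X] {K : Set X} (hK : IsClosed K)
    {x : X} (hx : x ∉ K) : ∃ g : X → ℝ, Continuous g ∧ g x = 1 ∧ (∀ y ∈ K, g y = 0) ∧
      ∀ y, 0 ≤ g y := by
  obtain ⟨f, hf, h0, h1⟩ := CompletelyRegularSpace.completely_regular x K hK hx
  refine ⟨fun y => 1 - (f y : ℝ), continuous_const.sub (continuous_subtype_val.comp hf), by simp [h0],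
    fun y hy => by simp [h1 hy], fun y => sub_nonneg.2 (f y).2.2⟩

theorem sep_family {X : Type} [TopologicalSpace X] [T35Space X] (hD : Dep X) :
    ∃ e : ℕ → X → ℝ, (∀ n, Continuous (e n)) ∧ ∀ x y, x ≠ y → ∃ n, e n x ≠ e n y := by
  obtain ⟨W, hW1, hW2, hW3⟩ := hD {f : X → ℝ // Continuous f} Unit (fun f _ => f.1)
    (fun f _ => f.2) (fun _ => 1) (fun _ => 1)
  obtain ⟨e, he⟩ := (hW1.insert 0).exists_eq_range (insert_nonempty _ _)
  refine ⟨e, fun n => ?_, fun x y hxy => ?_⟩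
  · have : e n ∈ insert 0 W := he ▸ mem_range_self n
    rcases this with h | h
    · rw [h]
      exact continuous_const
    · exact hW2 _ h
  · obtain ⟨g, hg, h1, h2, -⟩ := exists_bump (K := {y}) isClosed_singleton hxy
    obtain ⟨G, η, h3, h4, h5⟩ := hW3 (Finsupp.single x 1 + Finsupp.single y (-1))
      ⟨⟨g, hg⟩, fun _ => by
        rw [ev_add_left, ev_single, ev_single]
        simp [h1, h2 y rfl]⟩
    by_contra hn
    push Not at hn
    obtain ⟨f, hf⟩ := h5 0 (fun w hw => by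
      obtain ⟨n, rfl⟩ : w ∈ range e := he ▸ mem_insert_of_mem _ (h3 hw)
      rw [ev_add_left, ev_single, ev_single, ev_zero_left]
      simpa [hn n] using h4)
    simpa [ev_zero_left] using hf ()

abbrev CA : Type := Finset (ℕ × ℚ × Bool)

theorem cut {X : Type} [TopologicalSpace X] [T35Space X] (hD : Dep X) :
    ∃ χ : CA → X → ℝ, (∀ a, Continuous (χ a)) ∧ ∀ (s : Finset X) (ε : ℝ), 0 < ε →
      ∃ (A : Finset CA) (ψ : X →₀ ℝ) (δ : ℝ), 0 < δ ∧ ∀ z z' : X → ℝ,
        (∀ a ∈ A, |ev ψ (fun x => χ a x * z x) - ev ψ (fun x => χ a x * z' x)| < δ) →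
          ∀ x ∈ s, |z x - z' x| < ε := by
  classical
  obtain ⟨e, he, hsep⟩ := sep_family hD
  let bump : ℕ × ℚ × Bool → X → ℝ := fun a x =>
    max 0 (if a.2.2 then e a.1 x - a.2.1 else a.2.1 - e a.1 x)
  have hb : ∀ a, Continuous (bump a) := by
    intro a
    have := he a.1
    refine continuous_const.max ?_
    split_ifs <;> fun_prop
  have h1 : ∀ x y, ∃ a, y ≠ x → 0 < bump a x ∧ bump a y = 0 := by
    intro x y
    by_cases h : y = x
    · exact ⟨(0, 0, true), fun hh => absurd h hh⟩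
    obtain ⟨n, hn⟩ := hsep y x h
    rcases lt_or_gt_of_ne hn with h2 | h2
    · obtain ⟨q, h3, h4⟩ := exists_rat_btwn h2
      exact ⟨(n, q, true), fun _ => ⟨by simp [bump, h4], by simp [bump, h3.le]⟩⟩
    · obtain ⟨q, h3, h4⟩ := exists_rat_btwn h2
      exact ⟨(n, q, false), fun _ => ⟨by simp [bump, h3], by simp [bump, h4.le]⟩⟩
  choose a ha using h1
  refine ⟨fun S x => ∏ b ∈ S, bump b x, fun S => continuous_finsetProd _ fun b _ => hb b,
    fun s ε hε => ?_⟩
  let S : X → CA := fun x => (s.erase x).image (a x)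
  have h2 : ∀ x, 0 < ∏ b ∈ S x, bump b x := fun x => Finset.prod_pos fun b hb => by
    obtain ⟨y, hy, rfl⟩ := Finset.mem_image.1 hb
    exact (ha x y (Finset.mem_erase.1 hy).1).1
  have h3 : ∀ x, ∀ y ∈ s, y ≠ x → ∏ b ∈ S x, bump b y = 0 := fun x y hy hyx =>
    Finset.prod_eq_zero (Finset.mem_image_of_mem _ (Finset.mem_erase.2 ⟨hyx, hy⟩)) (ha x y hyx).2
  have h4 : ∀ᶠ δ in 𝓝[>] (0 : ℝ), ∀ x ∈ s, δ < (∏ b ∈ S x, bump b x) * ε := by
    refine (eventually_all_finset s).2 fun x _ => ?_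
    filter_upwards [Ioo_mem_nhdsGT (mul_pos (h2 x) hε)] with δ hδ
    exact hδ.2
  obtain ⟨δ, h5, h6⟩ := (h4.and self_mem_nhdsWithin).exists
  refine ⟨s.image S, j18955_fs s (fun _ => 1), δ, h6, fun z z' h x hx => ?_⟩
  have h7 := h (S x) (Finset.mem_image_of_mem _ hx)
  beta_reduce at h7
  rw [j18955_ev_fs, j18955_ev_fs, Finset.sum_eq_single_of_mem x hx (fun y hy hyx => by
    rw [h3 x y hy hyx]; simp), Finset.sum_eq_single_of_mem x hx (fun y hy hyx => by
    rw [h3 x y hy hyx]; simp), one_mul, one_mul, ← mul_sub, abs_mul, abs_of_pos (h2 x)] at h7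
  exact lt_of_mul_lt_mul_left (h7.trans (h5 x hx)) (h2 x).le

theorem box {X κ : Type} [Finite κ] (g : κ → X → ℝ) (U : Set (κ → X → ℝ)) (hU : U ∈ 𝓝 g) :
    ∃ (s : Finset X) (ε : ℝ), 0 < ε ∧ ∀ f : κ → X → ℝ, (∀ i, ∀ x ∈ s, |f i x - g i x| < ε) →
      f ∈ U := by
  classical
  have box1 : ∀ (g : X → ℝ) (U : Set (X → ℝ)), U ∈ 𝓝 g → ∃ s : Finset X,
      ∀ᶠ ε in 𝓝[>] (0 : ℝ), ∀ f : X → ℝ, (∀ x ∈ s, |f x - g x| < ε) → f ∈ U := by
    intro g U hU
    rw [nhds_pi, mem_pi'] at hU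
    obtain ⟨s, t, h1, h2⟩ := hU
    refine ⟨s, ?_⟩
    have h3 : ∀ᶠ ε in 𝓝[>] (0 : ℝ), ∀ x ∈ s, ∀ r, |r - g x| < ε → r ∈ t x := by
      refine (eventually_all_finset s).2 fun x _ => ?_
      obtain ⟨δ, hδ, h4⟩ := Metric.mem_nhds_iff.1 (h1 x)
      filter_upwards [Ioo_mem_nhdsGT hδ] with ε hε r hr
      exact h4 (by rw [Metric.mem_ball, Real.dist_eq]; linarith [hε.2])
    filter_upwards [h3] with ε hε f hf
    exact h2 fun x hx => hε x hx _ (hf x hx)
  rw [nhds_pi, mem_pi'] at hU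
  obtain ⟨I, t, h1, h2⟩ := hU
  choose s hs using fun i => box1 (g i) (t i) (h1 i)
  have := Fintype.ofFinite κ
  obtain ⟨ε, h3, h4⟩ := ((eventually_all.2 hs).and self_mem_nhdsWithin).exists
  exact ⟨Finset.univ.biUnion s, ε, h4, fun f hf => h2 fun i _ => h3 i (f i) fun x hx =>
    hf i x (Finset.mem_biUnion.2 ⟨i, Finset.mem_univ _, hx⟩)⟩

theorem key' {X : Type} [TopologicalSpace X] [T35Space X] (hD : Dep X) (e : Ext X) (d : ℕ → X)
    (hd : DenseRange d) (H κ : Type) [Finite κ]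
    (u : H → κ → X → ℝ) (hu : ∀ f i, Continuous (u f i)) (hu0 : ∀ f i t, u f i (e.p t) = 0) :
    ∃ C : Set (κ → X → ℝ), C.Countable ∧
      (∀ w ∈ C, (∀ i, Continuous (w i)) ∧ ∃ F : Filter H, F.NeBot ∧
        ∀ i n, Tendsto (fun f => u f i (d n)) F (𝓝 (w i (d n)))) ∧
      ∀ f0 : H, u f0 ∈ closure C := by
  obtain ⟨χ, hχ, hcut⟩ := cut hD
  choose C hC1 hC2 hC3 using fun A : Finset CA => key hD e d hd H (κ × Option A)
    (fun f q => q.2.elim (u f q.1) (fun a x => χ a.1 x * u f q.1 x))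
    (by
      rintro f ⟨i, _ | a⟩
      · exact hu f i
      · exact (hχ _).mul (hu f i))
    (by
      rintro f ⟨i, _ | a⟩ t
      · exact hu0 f i t
      · simp [hu0 f i t])
  refine ⟨⋃ A, (fun w i => w (i, none)) '' C A, countable_iUnion fun A => (hC1 A).image _, ?_, ?_⟩
  · intro w hw
    obtain ⟨A, v, hv, rfl⟩ := mem_iUnion.1 hw
    obtain ⟨h1, F, h2, h3⟩ := hC2 A v hv
    exact ⟨fun i => h1 _, F, h2, fun i n => h3 (i, none) n⟩
  · intro f0
    refine mem_closure_iff_nhds.2 fun U hU => ?_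
    obtain ⟨s, ε, hε, hs⟩ := box _ U hU
    obtain ⟨A, ψ, δ, hδ, h⟩ := hcut s ε hε
    obtain ⟨w, hw, h1⟩ := hC3 A f0 ψ δ hδ
    obtain ⟨h2, F, h3, h4⟩ := hC2 A w hw
    refine ⟨fun i => w (i, none), hs _ fun i => h _ _ fun a ha => ?_, mem_iUnion.2 ⟨A, w, hw, rfl⟩⟩
    have h5 : w (i, some ⟨a, ha⟩) = fun x => χ a x * w (i, none) x := by
      refine hd.equalizer (h2 _) ((hχ a).mul (h2 _)) (funext fun n => ?_)
      exact tendsto_nhds_unique (h4 (i, some ⟨a, ha⟩) n) ((h4 (i, none) n).const_mul _)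
    have := h1 (i, some ⟨a, ha⟩)
    rw [h5] at this
    exact this

theorem spread' {X : Type} [TopologicalSpace X] [T35Space X] (hD : Dep X) (e : Ext X)
    (H κ : Type) [Finite κ] (u : H → κ → X → ℝ) (hu : ∀ f i, Continuous (u f i))
    (hu0 : ∀ f i t, u f i (e.p t) = 0) (l : H → ℕ → Bool) (hl : Function.Injective l)
    (hdis : ∀ f, ∃ U ∈ 𝓝 (u f), ∀ g, u g ∈ U → g = f) : Countable H := by
  obtain ⟨χ, hχ, hcut⟩ := cut hD
  choose W hW1 hW2 hW3 using fun A : Finset CA => pin hD e H (κ × A)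
    (fun f q x => χ q.2.1 x * u f q.1 x) (fun f q => (hχ _).mul (hu f _))
    (fun f q t => by simp [hu0 f q.1 t]) l
  have hB : (⋃ A, ⋃ G ∈ {G : Finset (X → ℝ) | (G : Set (X → ℝ)) ⊆ W A}, BB (e.res G)).Countable := by
    refine countable_iUnion fun A => Countable.biUnion ?_ fun G _ => (BB_finite _).countable
    exact ((countable_ofPred_finite_subset (hW1 A)).preimage Finset.coe_injective).mono
      fun G hG => And.intro G.finite_toSet hG
  refine countable_univ_iff.1 ((hB.preimage hl).mono fun f _ => ?_)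
  obtain ⟨U, hU, h1⟩ := hdis f
  obtain ⟨s, ε, hε, hs⟩ := box _ U hU
  obtain ⟨A, ψ, δ, hδ, h⟩ := hcut s ε hε
  obtain ⟨G, η, h2, h3, h4⟩ := hW3 A f ψ δ hδ
  obtain ⟨b, hb, h5⟩ := h4 ψ (fun w _ => by simpa using h3)
  have h6 : l f = b := by
    by_contra hne
    have h7 : ∀ᶠ g in comap l (𝓝 b), l g ≠ l f :=
      tendsto_comap.eventually (eventually_ne_nhds (Ne.symm hne))
    obtain ⟨g, h8, h9⟩ := (h5.and_eventually h7).exists
    exact h9 (congrArg l (h1 g (hs _ fun i => h _ _ fun a ha => h8 (i, ⟨a, ha⟩))))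
  exact mem_iUnion.2 ⟨A, mem_iUnion₂.2 ⟨G, h2, h6 ▸ hb⟩⟩

theorem exists_ext {X : Type} [TopologicalSpace X] (θ : X → ℝ) (hθ : Continuous θ)
    (hub : ∀ M, ∃ x, M < θ x) :
    ∃ e e' : Ext X, ∀ a t, e'.E a (e.p t) = 0 := by
  classical
  choose nx hnx using hub
  let x : ℕ → X := fun n => Nat.rec (nx 0) (fun _ y => nx (θ y + 1)) n
  have h1 : ∀ n, θ (x n) + 1 < θ (x (n + 1)) := fun n => hnx _
  have h2 : ∀ m k, θ (x m) + k ≤ θ (x (m + k)) := by
    intro m k
    induction k with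
    | zero => simp
    | succ k ih =>
      have := h1 (m + k)
      rw [← add_assoc]
      push_cast
      linarith
  have h3 : ∀ m n, m < n → θ (x m) + 1 ≤ θ (x n) := by
    intro m n h
    obtain ⟨k, rfl⟩ := Nat.exists_eq_add_of_lt h
    have := h2 m (k + 1)
    have h0 : (0 : ℝ) ≤ k := Nat.cast_nonneg k
    push_cast at this
    rw [add_assoc]
    linarith
  let ω : ℕ → X → ℝ := fun n y => max 0 (1 - |θ y - θ (x n)|)
  have ω1 : ∀ n, ω n (x n) = 1 := fun n => by simp [ω]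
  have ω0 : ∀ m n, m ≠ n → ω m (x n) = 0 := by
    intro m n h
    refine max_eq_left ?_
    rcases lt_or_gt_of_ne h with h | h
    · have := h3 m n h
      have := le_abs_self (θ (x n) - θ (x m))
      linarith
    · have := h3 n m h
      have := neg_abs_le (θ (x n) - θ (x m))
      linarith
  have lf : LocallyFinite fun n => Function.support (ω n) := by
    intro y
    refine ⟨{z | θ z < θ y + 1}, (isOpen_lt hθ continuous_const).mem_nhds (by simp), ?_⟩
    obtain ⟨N, hN⟩ := exists_nat_gt (θ y + 2 - θ (x 0))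
    refine (finite_lt_nat N).subset ?_
    rintro n ⟨z, hz1, hz2⟩
    by_contra hn
    have h4 : (N : ℝ) ≤ n := by exact_mod_cast not_lt.1 hn
    have h5 := h2 0 n
    rw [zero_add] at h5
    have h6 : θ z < θ y + 1 := hz2
    refine hz1 (max_eq_left ?_)
    have := neg_abs_le (θ z - θ (x n))
    linarith
  have mk : ∀ k : J → ℕ, Function.Injective k → ∃ e : Ext X, (∀ t, e.p t = x (k t)) ∧
      ∀ a n, (∀ t, k t ≠ n) → e.E a (x n) = 0 := by
    intro k hk
    have lf' : LocallyFinite fun t => Function.support (ω (k t)) := lf.comp_injective hk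
    refine ⟨⟨fun t => x (k t), fun a y => ∑ᶠ t, a t * ω (k t) y, fun a => ?_, fun a t => ?_,
      fun y => ?_⟩, fun t => rfl, fun a n hn => ?_⟩
    · refine continuous_finsum (fun t => ?_) (lf'.subset fun t z hz => ?_)
      · simp only [ω]
        fun_prop
      · exact right_ne_zero_of_mul hz
    · rw [finsum_eq_single _ t fun s hs => by rw [ω0 _ _ (hk.ne hs), mul_zero], ω1, mul_one]
    · have hfin : (Function.support fun t => ω (k t) y).Finite := lf'.point_finite y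
      refine ⟨Finsupp.ofSupportFinite _ hfin, fun a => ?_⟩
      rw [ev_eq_sum _ a hfin.toFinset (fun t ht => by
          simpa [Finsupp.ofSupportFinite_coe] using ht),
        finsum_eq_sum_of_support_subset _ (s := hfin.toFinset) (fun t ht => by
          simpa using right_ne_zero_of_mul ht)]
      exact Finset.sum_congr rfl fun t _ => mul_comm _ _
    · simp only
      rw [finsum_eq_zero_of_forall_eq_zero]
      intro t
      rw [ω0 _ _ (hn t), mul_zero]
  obtain ⟨k, hk⟩ := exists_injective_nat J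
  obtain ⟨e, he, -⟩ := mk (fun t => 2 * k t) (fun s t h => hk (by simpa using h))
  obtain ⟨e', -, he'⟩ := mk (fun t => 2 * k t + 1) (fun s t h => hk (by simpa using h))
  exact ⟨e, e', fun a t => by rw [he]; exact he' a _ fun s => by omega⟩

end Pool.Agent.H294Z.Lp
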