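import Pool.Agent.H294Z.Lp.Pin

set_option autoImplicit false

open Set Topology Filter

namespace Pool.Agent.H294Z.Lp

open Pool.Agent.Helper47.LP

theorem conv_of_bits {A : Type} (F : Filter A) (x : A → ℝ)
    (h : ∀ q : ℚ, (∀ᶠ a in F, x a < q) ∨ (∀ᶠ a in F, ¬ x a < q)) (c ε : ℝ)
    (hf : ∃ᶠ a in F, |x a - c| < ε) : ∃ r, |r - c| ≤ ε ∧ Tendsto x F (𝓝 r) := by
  obtain ⟨r, hr, hcl⟩ := (isCompact_closedBall c ε).exists_mapClusterPt_of_frequently
    (l := F) (f := x) (hf.mono fun a ha => by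
      rw [Metric.mem_closedBall, Real.dist_eq]
      exact ha.le)
  refine ⟨r, by rwa [Metric.mem_closedBall, Real.dist_eq] at hr, tendsto_order.2 ⟨?_, ?_⟩⟩
  · intro a ha
    obtain ⟨q, h1, h2⟩ := exists_rat_btwn ha
    have h3 : ∃ᶠ s in F, x s ∈ Ioi (q : ℝ) := mapClusterPt_iff_frequently.1 hcl _ (Ioi_mem_nhds h2)
    rcases h q with h4 | h4
    · obtain ⟨s, h5, h6⟩ := (h3.and_eventually h4).exists
      exact absurd h5 (not_lt.2 h6.le)
    · exact h4.mono fun s hs => lt_of_lt_of_le h1 (not_lt.1 hs)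
  · intro a ha
    obtain ⟨q, h1, h2⟩ := exists_rat_btwn ha
    have h3 : ∃ᶠ s in F, x s ∈ Iio (q : ℝ) := mapClusterPt_iff_frequently.1 hcl _ (Iio_mem_nhds h1)
    rcases h q with h4 | h4
    · exact h4.mono fun s hs => hs.trans h2
    · obtain ⟨s, h5, h6⟩ := (h3.and_eventually h4).exists
      exact absurd h5 h6

noncomputable def cst (c : ℕ →₀ ℚ) : ℕ →₀ ℝ := Finsupp.mapRange (fun q : ℚ => (q : ℝ)) (by simp) c

theorem cst_add (c c' : ℕ →₀ ℚ) : cst (c + c') = cst c + cst c' := by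
  ext n
  simp [cst]

theorem cst_smul (q : ℚ) (c : ℕ →₀ ℚ) : cst (q • c) = (q : ℝ) • cst c := by
  ext n
  simp [cst]

theorem cst_single (n : ℕ) (q : ℚ) : cst (Finsupp.single n q) = Finsupp.single n (q : ℝ) := by
  simp [cst]

theorem rat_near {ι : Type} [Finite ι] (z : ι → ℕ → ℝ) (φ : ℕ →₀ ℝ) :
    ∀ δ : ℝ, 0 < δ → ∃ c, ∀ i, |ev (cst c) (z i) - ev φ (z i)| < δ := by
  induction φ using Finsupp.induction_linear with
  | zero => exact fun δ hδ => ⟨0, fun i => by simpa [cst, ev_zero_left] using hδ⟩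
  | add f g h1 h2 =>
    intro δ hδ
    obtain ⟨c, hc⟩ := h1 _ (half_pos hδ)
    obtain ⟨c', hc'⟩ := h2 _ (half_pos hδ)
    refine ⟨c + c', fun i => ?_⟩
    rw [cst_add, ev_add_left, ev_add_left]
    have a1 := abs_lt.1 (hc i)
    have a2 := abs_lt.1 (hc' i)
    rw [abs_lt]
    constructor <;> linarith
  | single x r =>
    intro δ hδ
    have h : ∀ᶠ s in 𝓝 r, ∀ i, |s * z i x - r * z i x| < δ := by
      refine eventually_all.2 fun i => ?_
      refine ContinuousAt.eventually_lt (f := fun s => |s * z i x - r * z i x|) (by fun_prop)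
        continuousAt_const (by simpa using hδ)
    obtain ⟨q, hq⟩ := Rat.denseRange_cast.mem_nhds h
    exact ⟨Finsupp.single x q, fun i => by rw [cst_single, ev_single, ev_single]; exact hq i⟩

theorem dense_near {X : Type} [TopologicalSpace X] {d : ℕ → X} (hd : DenseRange d) {ι : Type}
    [Finite ι] (z : ι → X → ℝ) (hz : ∀ i, Continuous (z i)) (ψ : X →₀ ℝ) :
    ∀ δ : ℝ, 0 < δ → ∃ c : ℕ →₀ ℝ, ∀ i, |ev c (z i ∘ d) - ev ψ (z i)| < δ := by
  induction ψ using Finsupp.induction_linear with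
  | zero => exact fun δ hδ => ⟨0, fun i => by simpa [ev_zero_left] using hδ⟩
  | add f g h1 h2 =>
    intro δ hδ
    obtain ⟨c, hc⟩ := h1 _ (half_pos hδ)
    obtain ⟨c', hc'⟩ := h2 _ (half_pos hδ)
    refine ⟨c + c', fun i => ?_⟩
    rw [ev_add_left, ev_add_left]
    have a1 := abs_lt.1 (hc i)
    have a2 := abs_lt.1 (hc' i)
    rw [abs_lt]
    constructor <;> linarith
  | single x r =>
    intro δ hδ
    have h : ∀ᶠ s in 𝓝 x, ∀ i, |r * z i s - r * z i x| < δ := by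
      refine eventually_all.2 fun i => ?_
      have := hz i
      refine ContinuousAt.eventually_lt (f := fun s => |r * z i s - r * z i x|) (by fun_prop)
        continuousAt_const (by simpa using hδ)
    obtain ⟨n, hn⟩ := hd.mem_nhds h
    exact ⟨Finsupp.single n r, fun i => by rw [ev_single, ev_single]; exact hn i⟩

theorem rat_approx {ι : Type} [Finite ι] (z : ι → ℕ → ℝ) (φ : ℕ →₀ ℝ) (δ : ℝ) (hδ : 0 < δ)
    {κ : Type} [Finite κ] (V : κ → Submodule ℚ (ℕ →₀ ℚ)) (hV : ∀ k, V k ≠ ⊤) :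
    ∃ c, (∀ k, c ∉ V k) ∧ ∀ i, |ev (cst c) (z i) - ev φ (z i)| < δ := by
  obtain ⟨c, hc⟩ := rat_near z φ _ (half_pos hδ)
  obtain ⟨χ, hχ⟩ := Submodule.exists_forall_notMem_of_forall_ne_top V hV
  have h1 : ∀ᶠ n : ℕ in atTop, ∀ k, c + (1 / ((n : ℚ) + 1)) • χ ∉ V k := by
    refine eventually_all.2 fun k => ?_
    rw [← Nat.cofinite_eq_atTop, eventually_cofinite]
    refine Set.Subsingleton.finite fun n hn m hm => ?_
    simp only [mem_ofPred_eq, not_not] at hn hm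
    by_contra hne
    have h2 := (V k).sub_mem hn hm
    rw [add_sub_add_left_eq_sub, ← sub_smul] at h2
    refine hχ k (((V k).smul_mem_iff (sub_ne_zero.2 fun h => hne ?_)).1 h2)
    rw [one_div, one_div, inv_inj] at h
    exact_mod_cast add_right_cancel h
  have h2 : ∀ᶠ n : ℕ in atTop, ∀ i, |1 / ((n : ℝ) + 1) * ev (cst χ) (z i)| < δ / 2 := by
    refine eventually_all.2 fun i => ?_
    have := ((tendsto_one_div_add_atTop_nhds_zero_nat (𝕜 := ℝ)).mul_const (ev (cst χ) (z i))).abs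
    exact this.eventually_lt_const (by simpa using hδ)
  obtain ⟨n, h3, h4⟩ := (h1.and h2).exists
  refine ⟨_, h3, fun i => ?_⟩
  rw [cst_add, cst_smul, ev_add_left, ev_smul_left]
  have a1 := abs_lt.1 (hc i)
  have a2 := abs_lt.1 (h4 i)
  push_cast
  rw [abs_lt]
  constructor <;> linarith

theorem ev_lc {A : Type} (c : A →₀ ℝ) (z : A → ℝ) : Finsupp.linearCombination ℝ z c = ev c z := by
  simp [Finsupp.linearCombination_apply, ev]

theorem span_cont {X : Type} [TopologicalSpace X] {S : Set (X → ℝ)} (h : ∀ w ∈ S, Continuous w) :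
    ∀ w ∈ Submodule.span ℝ S, Continuous w := by
  intro w hw
  induction hw using Submodule.span_induction with
  | mem w hw => exact h w hw
  | zero => exact continuous_const
  | add u v _ _ h1 h2 => exact h1.add h2
  | smul r u _ h1 => exact h1.const_smul r

theorem key {X : Type} [TopologicalSpace X] (hD : Dep X) (e : Ext X) (d : ℕ → X)
    (hd : DenseRange d) (H κ : Type) [Finite κ]
    (u : H → κ → X → ℝ) (hu : ∀ f i, Continuous (u f i)) (hu0 : ∀ f i t, u f i (e.p t) = 0) :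
    ∃ C : Set (κ → X → ℝ), C.Countable ∧
      (∀ w ∈ C, (∀ i, Continuous (w i)) ∧ ∃ F : Filter H, F.NeBot ∧
        ∀ i n, Tendsto (fun f => u f i (d n)) F (𝓝 (w i (d n)))) ∧
      ∀ (f0 : H) (ψ : X →₀ ℝ) (ε : ℝ), 0 < ε →
        ∃ w ∈ C, ∀ i, |ev ψ (w i) - ev ψ (u f0 i)| < ε := by
  classical
  obtain ⟨enc, henc⟩ := exists_injective_nat ((ℕ →₀ ℚ) × κ × ℚ)
  let l : H → ℕ → Bool := fun f => Function.extend enc
    (fun q => decide (ev (cst q.1) (u f q.2.1 ∘ d) < q.2.2)) (fun _ => false)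
  let F : (ℕ → Bool) → Filter H := fun b => comap l (𝓝 b)
  have bits : ∀ b c i (q : ℚ), (∀ᶠ f in F b, ev (cst c) (u f i ∘ d) < q) ∨
      (∀ᶠ f in F b, ¬ ev (cst c) (u f i ∘ d) < q) := by
    intro b c i q
    have h1 : Tendsto (fun f => l f (enc (c, i, q))) (F b) (𝓝 (b (enc (c, i, q)))) :=
      ((continuous_apply _).tendsto b).comp tendsto_comap
    rw [nhds_discrete, tendsto_pure] at h1
    simp only [l, henc.extend_apply] at h1
    cases hb : b (enc (c, i, q))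
    · right
      rw [hb] at h1
      exact h1.mono fun f hf => by simpa using hf
    · left
      rw [hb] at h1
      exact h1.mono fun f hf => by simpa using hf
  obtain ⟨W, hW1, hW2, hW3⟩ := pin hD e H κ u hu hu0 l
  let Spec : Finset (X → ℝ) → (ℕ → Bool) → (κ → X → ℝ) → Prop := fun G b w =>
    (∀ i, w i ∈ Submodule.span ℝ (G : Set (X → ℝ))) ∧
      ∀ i n, Tendsto (fun f => u f i (d n)) (F b) (𝓝 (w i (d n)))
  have hwc : ∀ G b, ∃ w, (∃ w', Spec G b w') → Spec G b w := by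
    intro G b
    by_cases h : ∃ w', Spec G b w'
    · obtain ⟨w, hw⟩ := h
      exact ⟨w, fun _ => hw⟩
    · exact ⟨0, fun hh => absurd hh h⟩
  choose wc hwc using hwc
  refine ⟨⋃ G ∈ {G : Finset (X → ℝ) | (G : Set (X → ℝ)) ⊆ W},
    wc G '' {b | b ∈ BB (e.res G) ∧ (F b).NeBot ∧ ∃ w, Spec G b w}, ?_, ?_, ?_⟩
  · refine Countable.biUnion ?_ fun G _ =>
      (((BB_finite (e.res G)).subset fun b hb => hb.1).image _).countable
    exact ((countable_ofPred_finite_subset hW1).preimage Finset.coe_injective).mono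
      fun G hG => And.intro G.finite_toSet hG
  · intro w hw
    obtain ⟨G, hG, b, ⟨-, h1, h2⟩, rfl⟩ := mem_iUnion₂.1 hw
    exact ⟨fun i => span_cont (fun w hw => hW2 w (hG hw)) _ ((hwc G b h2).1 i), F b, h1,
      (hwc G b h2).2⟩
  intro f0 ψ ε hε
  obtain ⟨G, η, hG, hη, hpin⟩ := hW3 f0 ψ (ε / 2) (half_pos hε)
  have : Finite (BB (e.res G)) := (BB_finite _).to_subtype
  obtain ⟨δ, hδ, hδη, hδε⟩ : ∃ δ : ℝ, 0 < δ ∧ 2 * δ ≤ η ∧ 4 * δ ≤ ε :=
    ⟨min (η / 2) (ε / 4), by positivity, by linarith [min_le_left (η / 2) (ε / 4)],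
      by linarith [min_le_right (η / 2) (ε / 4)]⟩
  let y : (ℕ → Bool) → κ → ℕ → ℝ := fun b i n => limUnder (F b) (fun f => u f i (d n))
  let Gd : Finset (ℕ → ℝ) := G.image (fun w => w ∘ d)
  let B0 : Type := {b : BB (e.res G) // ∃ w, Spec G b.1 w}
  let B1 : Type := {q : BB (e.res G) × κ //
    ∃ n, ¬ ∃ r, Tendsto (fun f => u f q.2 (d n)) (F q.1.1) (𝓝 r)}
  let B2 : Type := {q : BB (e.res G) × κ // y q.1.1 q.2 ∉ Submodule.span ℝ (Gd : Set (ℕ → ℝ))}
  let z0 : G ⊕ (B0 × κ) → X → ℝ := Sum.elim (fun w => w.1) (fun q => wc G q.1.1.1 q.2)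
  have hz0 : ∀ i, z0 i ∈ Submodule.span ℝ (G : Set (X → ℝ)) := by
    rintro (w | q)
    · exact Submodule.subset_span w.2
    · exact (hwc G _ q.1.2).1 q.2
  obtain ⟨φ0, hφ0⟩ := dense_near hd z0
    (fun i => span_cont (fun w hw => hW2 w (hG hw)) _ (hz0 i)) ψ δ hδ
  obtain ⟨h, hh1, hh2⟩ := Module.Dual.exists_forall_mem_ne_zero_of_forall_exists
    (⨅ w : Gd, LinearMap.ker (Finsupp.linearCombination ℝ w.1))
    (fun q : B2 => Finsupp.linearCombination ℝ (y q.1.1.1 q.1.2)) (fun q => by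
      by_contra hn
      push Not at hn
      refine q.2 (mem_span_of_ann Gd _ fun c hc => ?_)
      rw [← ev_lc]
      refine hn c ((Submodule.mem_iInf _).2 fun w => ?_)
      rw [LinearMap.mem_ker, ev_lc]
      exact hc w.1 w.2)
  simp only [ev_lc] at hh2
  have hh3 : ∀ w ∈ Submodule.span ℝ (G : Set (X → ℝ)), ev h (w ∘ d) = 0 := by
    intro w hw
    rw [← ev_map]
    refine ev_span _ (fun w hw => ?_) w hw
    have := (Submodule.mem_iInf _).1 hh1 ⟨w ∘ d, Finset.mem_image_of_mem _ hw⟩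
    rw [LinearMap.mem_ker, ev_lc] at this
    rw [ev_map, this]
  have hT : ∀ᶠ T : ℝ in atTop, ∀ q : B2, ε + δ <
      |ev φ0 (y q.1.1.1 q.1.2) + T * ev h (y q.1.1.1 q.1.2) - ev ψ (u f0 q.1.2)| := by
    refine eventually_all.2 fun q => ?_
    set α := ev φ0 (y q.1.1.1 q.1.2) - ev ψ (u f0 q.1.2)
    set β := ev h (y q.1.1.1 q.1.2)
    have hβ : 0 < |β| := abs_pos.2 (hh2 q)
    filter_upwards [eventually_gt_atTop ((ε + δ + |α|) / |β|), eventually_gt_atTop 0] with T h1 h2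
    rw [div_lt_iff₀ hβ] at h1
    have h3 := abs_sub (α + T * β) α
    rw [add_sub_cancel_left, abs_mul, abs_of_pos h2] at h3
    rw [show ev φ0 (y q.1.1.1 q.1.2) + T * β - ev ψ (u f0 q.1.2) = α + T * β by ring]
    linarith
  obtain ⟨T, hT⟩ := hT.exists
  let V : B1 → Submodule ℚ (ℕ →₀ ℚ) := fun q =>
    { carrier := {c | ∃ r, Tendsto (fun f => ev (cst c) (u f q.1.2 ∘ d)) (F q.1.1.1) (𝓝 r)}
      add_mem' := by
        rintro a b ⟨r, hr⟩ ⟨s, hs⟩
        exact ⟨r + s, by simpa only [cst_add, ev_add_left] using hr.add hs⟩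
      zero_mem' := ⟨0, by simpa [cst, ev_zero_left] using tendsto_const_nhds⟩
      smul_mem' := by
        rintro a b ⟨r, hr⟩
        exact ⟨a * r, by simpa only [cst_smul, ev_smul_left] using hr.const_mul (a : ℝ)⟩ }
  have hV : ∀ q, V q ≠ ⊤ := by
    intro q hq
    obtain ⟨n, hn⟩ := q.2
    have h1 : Finsupp.single n (1 : ℚ) ∈ V q := by
      rw [hq]
      trivial
    obtain ⟨r, hr⟩ := h1
    exact hn ⟨r, by simpa [cst_single, ev_single] using hr⟩
  obtain ⟨c, hc1, hc2⟩ := rat_approx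
    (Sum.elim (fun i => z0 i ∘ d) (fun q : B2 => y q.1.1.1 q.1.2)) (φ0 + T • h) δ hδ V hV
  have hc3 : ∀ i, |ev (cst c) (z0 i ∘ d) - ev ψ (z0 i)| < 2 * δ := by
    intro i
    have a1 := abs_lt.1 (hc2 (Sum.inl i))
    have a2 := abs_lt.1 (hφ0 i)
    simp only [Sum.elim_inl] at a1
    rw [ev_add_left, ev_smul_left, hh3 _ (hz0 i)] at a1
    rw [abs_lt]
    constructor <;> linarith
  obtain ⟨b, hb, hfr⟩ := hpin (Finsupp.mapDomain d (cst c)) (fun w hw => by
    rw [ev_map]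
    exact lt_of_lt_of_le (hc3 (Sum.inl ⟨w, hw⟩)) hδη)
  have hne : (F b).NeBot := by
    by_contra hn
    rw [not_neBot] at hn
    have : F b = comap l (𝓝 b) := rfl
    rw [← this, hn] at hfr
    exact frequently_bot hfr
  have hconv : ∀ i, ∃ r, |r - ev ψ (u f0 i)| ≤ ε / 2 ∧
      Tendsto (fun f => ev (cst c) (u f i ∘ d)) (F b) (𝓝 r) := fun i =>
    conv_of_bits _ _ (bits b c i) _ _ (hfr.mono fun f hf => by
      have := hf i
      rwa [ev_map] at this)
  have hy : ∀ i n, Tendsto (fun f => u f i (d n)) (F b) (𝓝 (y b i n)) := by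
    intro i n
    refine tendsto_nhds_limUnder ?_
    by_contra hn
    obtain ⟨r, -, hr⟩ := hconv i
    exact hc1 ⟨(⟨b, hb⟩, i), n, hn⟩ ⟨r, hr⟩
  have hr : ∀ i, |ev (cst c) (y b i) - ev ψ (u f0 i)| ≤ ε / 2 := by
    intro i
    obtain ⟨r, h1, h2⟩ := hconv i
    rwa [tendsto_nhds_unique (ev_tendsto (cst c) (hy i)) h2]
  have hsp : ∃ w, Spec G b w := by
    have h1 : ∀ i, ∃ w ∈ Submodule.span ℝ (G : Set (X → ℝ)), w ∘ d = y b i := by
      intro i
      have h2 : y b i ∈ Submodule.span ℝ (Gd : Set (ℕ → ℝ)) := by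
        by_contra hn
        have a1 := abs_lt.1 (hc2 (Sum.inr ⟨(⟨b, hb⟩, i), hn⟩))
        have a2 := hT ⟨(⟨b, hb⟩, i), hn⟩
        have a3 := abs_le.1 (hr i)
        simp only [Sum.elim_inr] at a1 a2
        rw [ev_add_left, ev_smul_left] at a1
        rcases lt_abs.1 a2 with a4 | a4 <;> linarith
      have h3 : (Gd : Set (ℕ → ℝ)) = LinearMap.funLeft ℝ ℝ d '' (G : Set (X → ℝ)) := by
        rw [Finset.coe_image]
        rfl
      rw [h3, ← Submodule.map_span] at h2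
      exact h2
    choose w h2 h3 using h1
    exact ⟨w, h2, fun i n => by
      rw [show w i (d n) = y b i n from congrFun (h3 i) n]
      exact hy i n⟩
  refine ⟨wc G b, mem_iUnion₂.2 ⟨G, hG, b, ⟨hb, hne, hsp⟩, rfl⟩, fun i => ?_⟩
  have e1 : wc G b i ∘ d = y b i :=
    funext fun n => tendsto_nhds_unique ((hwc G b hsp).2 i n) (hy i n)
  have a1 := abs_lt.1 (hc3 (Sum.inr (⟨⟨b, hb⟩, hsp⟩, i)))
  have a2 := abs_le.1 (hr i)
  simp only [z0, Sum.elim_inr] at a1
  rw [e1] at a1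
  rw [abs_lt]
  constructor <;> linarith

end Pool.Agent.H294Z.Lp
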