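import Pool.Agent.H294Z.Lp.Cut
import Pool.Agent.Helper937.Szd2

set_option autoImplicit false

open Set Topology Filter Cardinal

namespace Pool.Agent.H294Z.Lp

open Pool.Agent.Helper47.LP Pool.Agent.Helper937.Szd

abbrev W1 : Type := (ℵ₁ : Cardinal.{0}).ord.ToType

theorem w1_rec {A : Type} (R : Set A → A → Prop) (h : ∀ C : Set A, C.Countable → ∃ a, R C a) :
    ∃ f : W1 → A, ∀ i, R (f '' Iio i) (f i) := by
  classical
  choose g hg using h
  have hc : ∀ (i : W1) (r : ∀ j, j < i → A), (range fun j : Iio i => r j.1 j.2).Countable := by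
    intro i r
    have : Countable (Iio i) :=
      ((countable_iff_lt_aleph_one _).2 (mk_Iio_toType_ord_lt i)).to_subtype
    exact countable_range _
  let f : W1 → A := (wellFounded_lt (α := W1)).fix fun i r => g _ (hc i r)
  refine ⟨f, fun i => ?_⟩
  have h1 : f i = g _ (hc i fun j _ => f j) := WellFounded.fix_eq _ _ i
  have h2 : f '' Iio i = range fun j : Iio i => f j.1 := image_eq_range f (Iio i)
  rw [h1, h2]
  exact hg _ _

theorem w1_unc : ¬ Countable W1 := by
  rw [← Cardinal.mk_le_aleph0_iff, mk_ord_toType, not_le]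
  exact aleph0_lt_aleph_one

theorem w1_lab : ∃ l : W1 → ℕ → Bool, Function.Injective l := by
  have : #W1 ≤ #(ℕ → Bool) := by
    rw [mk_ord_toType]
    simpa using aleph_one_le_continuum
  obtain ⟨l⟩ := this
  exact ⟨l, l.injective⟩

section Ext2

variable {X : Type} [TopologicalSpace X] (e e' : Ext X)

noncomputable def fwd {κ : Type} (f : κ → X → ℝ) : κ × Bool → X → ℝ := fun q x =>
  if q.2 then e'.E (f q.1 ∘ e.p) x else f q.1 x - e.E (f q.1 ∘ e.p) x

noncomputable def back {κ : Type} (w : κ × Bool → X → ℝ) : κ → X → ℝ := fun i x =>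
  w (i, false) x + e.E (w (i, true) ∘ e'.p) x

theorem back_fwd {κ : Type} (f : κ → X → ℝ) : back e e' (fwd e e' f) = f := by
  funext i x
  have : fwd e e' f (i, true) ∘ e'.p = f i ∘ e.p := funext fun t => by simp [fwd, e'.app]
  simp only [back, this]
  simp [fwd]

theorem fwd_cont {κ : Type} {f : κ → X → ℝ} (hf : ∀ i, Continuous (f i)) (q : κ × Bool) :
    Continuous (fwd e e' f q) := by
  unfold fwd
  split_ifs
  · exact e'.cont _
  · exact (hf _).sub (e.cont _)

theorem fwd_zero (h : ∀ a t, e'.E a (e.p t) = 0) {κ : Type} (f : κ → X → ℝ) (q : κ × Bool)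
    (t : J) : fwd e e' f q (e.p t) = 0 := by
  unfold fwd
  split_ifs
  · exact h _ _
  · simp [e.app]

theorem back_tendsto {κ A : Type} {F : Filter A} {u : A → κ × Bool → X → ℝ}
    {w : κ × Bool → X → ℝ} (i : κ) (x : X)
    (h1 : Tendsto (fun a => u a (i, false) x) F (𝓝 (w (i, false) x)))
    (h2 : ∀ t, Tendsto (fun a => u a (i, true) (e'.p t)) F (𝓝 (w (i, true) (e'.p t)))) :
    Tendsto (fun a => back e e' (u a) i x) F (𝓝 (back e e' w i x)) := by
  obtain ⟨c, hc⟩ := e.fin x
  simp only [back, hc]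
  exact h1.add (ev_tendsto c h2)

theorem back_cont {κ : Type} : Continuous (back e e' (κ := κ)) := by
  refine continuous_pi fun i => continuous_pi fun x => continuous_iff_continuousAt.2 fun w => ?_
  exact back_tendsto e e' (u := id) i x
    (((continuous_apply x).comp (continuous_apply (i, false))).tendsto w)
    (fun t => ((continuous_apply (e'.p t)).comp (continuous_apply (i, true))).tendsto w)

end Ext2

def vl {X κ : Type} [TopologicalSpace X] (f : κ → Cp X) : κ → X → ℝ := fun i => (f i).1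

theorem vl_ind {X κ : Type} [TopologicalSpace X] : IsInducing (vl (X := X) (κ := κ)) :=
  IsInducing.piMap fun _ => IsInducing.subtypeVal

theorem vl_inj {X κ : Type} [TopologicalSpace X] : Function.Injective (vl (X := X) (κ := κ)) :=
  fun _ _ h => funext fun i => Subtype.ext (congrFun h i)

theorem vl_cont {X κ : Type} [TopologicalSpace X] (i : κ) (x : X) :
    Continuous fun g : κ → Cp X => (g i).1 x :=
  (continuous_apply x).comp (continuous_subtype_val.comp (continuous_apply i))

theorem cs_unb {X : Type} [TopologicalSpace X] [T35Space X] (hD : Dep X) (e e' : Ext X)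
    (hee : ∀ a t, e'.E a (e.p t) = 0) (n : ℕ) : CS (Fin n → Cp X) := by
  classical
  intro S hS
  by_contra hns
  obtain ⟨l, hl⟩ := w1_lab
  obtain ⟨F, hF⟩ := w1_rec (A := S) (fun C a => a ∉ closure C) (fun C hC => by
    by_contra hn
    push Not at hn
    exact hns ⟨C, hC, hn⟩)
  have HL : ∀ (κ : Type) [Finite κ] (ι : Type) (V : ι → Set (κ → Cp X)), (∀ i, IsOpen (V i)) →
      ∃ T : Set ι, T.Countable ∧ ∀ i, ∀ z ∈ V i, ∃ j ∈ T, z ∈ V j := by
    intro κ _ ι V hV
    by_contra hn
    push Not at hn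
    obtain ⟨G, hG⟩ := w1_rec (A := {q : ι × (κ → Cp X) // q.2 ∈ V q.1})
      (fun C a => ∀ c ∈ C, a.1.2 ∉ V c.1.1) (fun C hC => by
        obtain ⟨i, z, hz, h⟩ := hn ((fun c => c.1.1) '' C) (hC.image _)
        exact ⟨⟨(i, z), hz⟩, fun c hc => h _ (mem_image_of_mem _ hc)⟩)
    let P : W1 → Fin n ⊕ κ → Cp X := fun a => Sum.elim (F a).1 (G a).1.2
    refine w1_unc (spread' hD e W1 ((Fin n ⊕ κ) × Bool) (fun a => fwd e e' (vl (P a)))
      (fun a => fwd_cont e e' fun i => (P a i).2) (fun a => fwd_zero e e' hee _) l hl fun a => ?_)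
    have c1 : Continuous fun z : Fin n ⊕ κ → Cp X => fun i => z (Sum.inl i) := by fun_prop
    have c2 : Continuous fun z : Fin n ⊕ κ → Cp X => fun i => z (Sum.inr i) := by fun_prop
    obtain ⟨O, hO, hO'⟩ := isOpen_induced_iff.1
      (isClosed_closure (s := F '' Iio a)).isOpen_compl
    obtain ⟨U, hU, hU'⟩ := vl_ind.isOpen_iff.1 ((hO.preimage c1).inter ((hV (G a).1.1).preimage c2))
    have key : ∀ b, vl (P b) ∈ U ↔ F b ∉ closure (F '' Iio a) ∧ (G b).1.2 ∈ V (G a).1.1 := by
      intro b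
      rw [← mem_preimage, hU', ← mem_compl_iff, ← hO']
      rfl
    refine ⟨back e e' ⁻¹' U, (hU.preimage (back_cont e e')).mem_nhds ?_, fun b hb => ?_⟩
    · rw [mem_preimage, back_fwd, key]
      exact ⟨hF a, (G a).2⟩
    · rw [mem_preimage, back_fwd, key] at hb
      rcases lt_trichotomy b a with h | h | h
      · exact absurd (subset_closure (mem_image_of_mem F (mem_Iio.2 h))) hb.1
      · exact h
      · exact absurd hb.2 (hG b _ (mem_image_of_mem G (mem_Iio.2 h)))
  obtain ⟨T, hT1, hT2⟩ := HL Unit X (fun x => {g | (g ()).1 x ≠ 0}) (fun x =>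
    isOpen_ne_fun (vl_cont () x) continuous_const)
  have hT3 : Dense T := by
    intro x
    by_contra hx
    obtain ⟨g, h1, h2, h3, -⟩ := exists_bump isClosed_closure hx
    obtain ⟨y, hy, h4⟩ := hT2 x (fun _ => ⟨g, h1⟩) (by simp [h2])
    exact h4 (h3 y (subset_closure hy))
  have hbox : ∀ g : {g // g ∉ S}, ∃ (s : Finset X) (ε : ℝ), 0 < ε ∧ ∀ f : Fin n → Cp X,
      (∀ i, ∀ x ∈ s, |(f i).1 x - (g.1 i).1 x| < ε) → f ∉ S := by
    intro g
    obtain ⟨U, hU, hU'⟩ := vl_ind.isOpen_iff.1 hS.isOpen_compl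
    obtain ⟨s, ε, h1, h2⟩ := box (vl g.1) U (hU.mem_nhds (by
      rw [← mem_preimage, hU']
      exact g.2))
    refine ⟨s, ε, h1, fun f hf => ?_⟩
    have := h2 (vl f) hf
    rwa [← mem_preimage, hU'] at this
  choose s ε hε hs using hbox
  obtain ⟨T', hT'1, hT'2⟩ := HL (Fin n) {g // g ∉ S}
    (fun g => {f | ∀ i, ∀ x ∈ s g, |(f i).1 x - (g.1 i).1 x| < ε g}) (fun g => by
      simp only [ofPred_forall]
      exact isOpen_iInter_of_finite fun i => isOpen_biInter_finset fun x _ =>
        isOpen_lt ((vl_cont i x).sub continuous_const).abs continuous_const)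
  obtain ⟨d, hd⟩ := ((hT1.union (hT'1.biUnion fun g _ => (s g).countable_toSet)).union
    (countable_range e'.p)).exists_eq_range ⟨e'.p ⟨0, default⟩, Or.inr (mem_range_self _)⟩
  have hdd : DenseRange d := hT3.mono (hd ▸ subset_union_left.trans subset_union_left)
  obtain ⟨C, hC1, hC2, hC3⟩ := key' hD e d hdd S (Fin n × Bool) (fun f => fwd e e' (vl f.1))
    (fun f => fwd_cont e e' fun i => (f.1 i).2) (fun f => fwd_zero e e' hee _)
  have hsub : back e e' '' C ⊆ (fun f : S => vl f.1) '' ((fun f : S => vl f.1) ⁻¹' (back e e' '' C)) := by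
    rintro _ ⟨w, hw, rfl⟩
    obtain ⟨h1, Φ, h2, h3⟩ := hC2 w hw
    let g : Fin n → Cp X := fun i => ⟨back e e' w i, (h1 _).add (e.cont _)⟩
    have h4 : ∀ i, ∀ x ∈ range d, Tendsto (fun f : S => (f.1 i).1 x) Φ (𝓝 ((g i).1 x)) := by
      rintro i _ ⟨m, rfl⟩
      have := back_tendsto e e' (F := Φ) (u := fun f : S => fwd e e' (vl f.1)) (w := w) i (d m)
        (h3 _ m) (fun t => by
          obtain ⟨k, hk⟩ : e'.p t ∈ range d := hd ▸ Or.inr (mem_range_self t)
          rw [← hk]
          exact h3 _ k)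
      simp only [back_fwd] at this
      exact this
    have h5 : g ∈ S := by
      by_contra hg
      obtain ⟨k, hk, h6⟩ := hT'2 ⟨g, hg⟩ g (fun i x _ => by simpa using hε ⟨g, hg⟩)
      have h7 : ∀ᶠ f : S in Φ, ∀ i, ∀ x ∈ s k, |(f.1 i).1 x - (k.1 i).1 x| < ε k := by
        refine eventually_all.2 fun i => (eventually_all_finset _).2 fun x hx => ?_
        refine (((h4 i x ?_).sub_const _).abs).eventually_lt_const (h6 i x hx)
        exact hd ▸ Or.inl (Or.inr (mem_biUnion hk hx))
      obtain ⟨f, hf⟩ := h7.exists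
      exact hs k f.1 hf f.2
    exact ⟨⟨g, h5⟩, ⟨w, hw, rfl⟩, rfl⟩
  refine hns ⟨(fun f : S => vl f.1) ⁻¹' (back e e' '' C),
    (hC1.image _).preimage (vl_inj.comp Subtype.val_injective), fun f => ?_⟩
  rw [(vl_ind.comp IsInducing.subtypeVal).closure_eq_preimage_closure_image]
  refine closure_mono hsub ?_
  have := image_closure_subset_closure_image (back_cont e e') (mem_image_of_mem _ (hC3 f))
  rwa [back_fwd] at this

theorem cs_bdd {X : Type} [TopologicalSpace X] [T35Space X] (hD : Dep X)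
    (hb : ∀ θ : X → ℝ, Continuous θ → ∃ M, ∀ x, θ x ≤ M) (n : ℕ) : CS (Fin n → Cp X) := by
  obtain ⟨e, he, hsep⟩ := sep_family hD
  let _ : MetricSpace (ℕ → ℝ) := PiCountable.metricSpace
  let q : X → ℕ → ℝ := fun x k => e k x
  have hq : Continuous q := continuous_pi he
  have hqi : Function.Injective q := by
    intro x y h
    by_contra hne
    obtain ⟨k, hk⟩ := hsep x y hne
    exact hk (congrFun h k)
  have low : ∀ θ : X → ℝ, Continuous θ → (∀ x, 0 < θ x) → ∃ δ, 0 < δ ∧ ∀ x, δ ≤ θ x := by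
    intro θ h1 h2
    obtain ⟨M, hM⟩ := hb (fun x => (θ x)⁻¹) (h1.inv₀ fun x => (h2 x).ne')
    refine ⟨(max M 1)⁻¹, by positivity, fun x => ?_⟩
    exact inv_le_of_inv_le₀ (h2 x) ((hM x).trans (le_max_left _ _))
  have hcl : IsClosedMap q := by
    intro K hK
    refine isClosed_of_closure_subset fun z hz => ?_
    by_contra hn
    have h1 : ∃ g : X → ℝ, Continuous g ∧ (∀ y ∈ K, g y = 0) ∧ (∀ y, 0 ≤ g y) ∧
        ∀ y, q y = z → 0 < g y := by
      by_cases h : ∃ x, q x = z
      · obtain ⟨x, rfl⟩ := h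
        obtain ⟨g, h1, h2, h3, h4⟩ := exists_bump hK (x := x) (fun hx => hn ⟨x, hx, rfl⟩)
        exact ⟨g, h1, h3, h4, fun y hy => by rw [hqi hy, h2]; exact one_pos⟩
      · exact ⟨0, continuous_const, fun _ _ => rfl, fun _ => le_rfl, fun y hy => absurd ⟨y, hy⟩ h⟩
    obtain ⟨g, h1, h2, h3, h4⟩ := h1
    obtain ⟨δ, hδ, h5⟩ := low (fun y => dist z (q y) + g y) ((continuous_const.dist hq).add h1)
      (fun y => by
        by_cases h : q y = z
        · exact add_pos_of_nonneg_of_pos dist_nonneg (h4 y h)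
        · exact add_pos_of_pos_of_nonneg (dist_pos.2 (Ne.symm h)) (h3 y))
    obtain ⟨_, ⟨y, hy, rfl⟩, h6⟩ := Metric.mem_closure_iff.1 hz δ hδ
    have := h5 y
    rw [h2 y hy] at this
    linarith
  have hemb : IsClosedEmbedding q := .of_continuous_injective_isClosedMap hq hqi hcl
  have : SecondCountableTopology X := hemb.isInducing.secondCountableTopology
  have : CompactSpace X := by
    choose M hM using fun k => hb (fun x => |e k x|) (he k).abs
    refine ⟨?_⟩
    have h1 := hemb.isCompact_preimage (isCompact_univ_pi fun k => isCompact_Icc (a := -M k) (b := M k))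
    convert h1
    exact (eq_univ_of_forall fun x k _ => abs_le.1 (hM k x)).symm
  refine CS.image (Z := Fin n → C(X, ℝ)) (fun S _ => inferInstance)
    (fun f i => ⟨f i, (f i).continuous⟩) ?_ ?_
  · refine continuous_pi fun i => Continuous.subtype_mk (continuous_pi fun x => ?_) _
    fun_prop
  · intro f
    exact ⟨fun i => ⟨(f i).1, (f i).2⟩, rfl⟩

theorem main (X : Type) [TopologicalSpace X] [T35Space X] (hL : PerfectlyNormalSpace (Lp X)) :
    PerfectlyNormalSpace {g : {f : X → ℝ // Continuous f} → ℝ // Continuous g} := by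
  have hD := dep_of_perfect X hL
  have hCS : ∀ n, CS (Fin n → Cp X) := by
    by_cases hb : ∀ θ : X → ℝ, Continuous θ → ∃ M, ∀ x, θ x ≤ M
    · exact cs_bdd hD hb
    · push Not at hb
      obtain ⟨θ, h1, h2⟩ := hb
      obtain ⟨e, e', h⟩ := exists_ext θ h1 h2
      exact cs_unb hD e e' h
  have hz : NormalSpace {g : {f : X → ℝ // Continuous f} → ℝ // Continuous g} ∧
      ∀ s : Set {g : {f : X → ℝ // Continuous f} → ℝ // Continuous g}, IsClosed s → IsGδ s := by
    apply perfect_of_zero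
    intro P hP
    exact zero_set (X := X) (E := {g : {f : X → ℝ // Continuous f} → ℝ // Continuous g})
      (fun φ => φ.1) IsInducing.subtypeVal (fun φ => φ.2) hCS P hP
  have := hz.1
  exact ⟨hz.2⟩

end Pool.Agent.H294Z.Lp
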