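import Mathlib
import Pool.Agent.Helper47.LP.Approx

set_option autoImplicit false

open Set Topology Filter

namespace Pool.Agent.H294Z.Lp

open Pool.Agent.Helper47.LP

/-- countable dependence of unions of slabs -/
def Dep (X : Type) [TopologicalSpace X] : Prop :=
  ∀ (H κ : Type) [Finite κ] (u : H → κ → X → ℝ), (∀ f i, Continuous (u f i)) →
    ∀ (a ε : κ → ℝ), ∃ W : Set (X → ℝ), W.Countable ∧ (∀ w ∈ W, Continuous w) ∧
      ∀ ψ : X →₀ ℝ, (∃ f, ∀ i, |ev ψ (u f i) - a i| < ε i) →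
        ∃ (G : Finset (X → ℝ)) (η : ℝ), (G : Set (X → ℝ)) ⊆ W ∧ 0 < η ∧
          ∀ φ : X →₀ ℝ, (∀ w ∈ G, |ev φ w - ev ψ w| < η) → ∃ f, ∀ i, |ev φ (u f i) - a i| < ε i

theorem dep_of_perfect (X : Type) [TopologicalSpace X] (hL : PerfectlyNormalSpace (Lp X)) :
    Dep X := by
  classical
  intro H κ _ u hu a ε
  let F : Set (Lp X) := {ψ | ∀ f, ∃ i, ε i ≤ |ψ.1 ⟨u f i, hu f i⟩ - a i|}
  have hF : IsClosed F := by
    have : F = ⋂ f, ⋃ i, {ψ : Lp X | ε i ≤ |ψ.1 ⟨u f i, hu f i⟩ - a i|} := by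
      ext ψ
      simp [F]
    rw [this]
    refine isClosed_iInter fun f => isClosed_iUnion_of_finite fun i => ?_
    refine isClosed_le continuous_const (Continuous.abs (Continuous.sub ?_ continuous_const))
    exact (continuous_apply _).comp continuous_subtype_val
  obtain ⟨W, hW, h⟩ := depends X hL F hF
  refine ⟨Subtype.val '' W, hW.image _, ?_, ?_⟩
  · rintro _ ⟨w, -, rfl⟩
    exact w.2
  · rintro ψ ⟨f, hf⟩
    obtain ⟨G, η, h1, h2, h3⟩ := h (j18955_Φ ψ) (fun hh => by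
      obtain ⟨i, hi⟩ := hh f
      exact absurd (hf i) (not_lt.2 hi))
    refine ⟨G.image Subtype.val, η, ?_, h2, fun φ hφ => ?_⟩
    · rw [Finset.coe_image]
      exact image_mono h1
    · have := h3 (j18955_Φ φ) (fun w hw => hφ w.1 (Finset.mem_image_of_mem _ hw))
      simp only [F, mem_ofPred_eq, not_forall, not_exists, not_le] at this
      exact this

theorem ev_map {A B : Type} (d : A → B) (c : A →₀ ℝ) (w : B → ℝ) :
    ev (Finsupp.mapDomain d c) w = ev c (w ∘ d) := by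
  unfold ev
  rw [Finsupp.sum_mapDomain_index (fun _ => by simp) (fun _ _ _ => by ring)]
  rfl

theorem ev_zero_right {A : Type} (c : A →₀ ℝ) : ev c (fun _ => 0) = 0 := by simp [ev]

theorem ev_sub_right {A : Type} (c : A →₀ ℝ) (u v : A → ℝ) :
    ev c (fun x => u x - v x) = ev c u - ev c v := by
  simp only [ev, Finsupp.sum, mul_sub, Finset.sum_sub_distrib]

theorem ev_mul_right {A : Type} (c : A →₀ ℝ) (r : ℝ) (u : A → ℝ) :
    ev c (fun x => r * u x) = r * ev c u := by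
  simp only [ev, Finsupp.sum, Finset.mul_sum]
  exact Finset.sum_congr rfl fun _ _ => by ring

theorem ev_tendsto {A B : Type} (c : A →₀ ℝ) {F : Filter B} {u : B → A → ℝ} {y : A → ℝ}
    (h : ∀ a, Tendsto (fun b => u b a) F (𝓝 (y a))) :
    Tendsto (fun b => ev c (u b)) F (𝓝 (ev c y)) :=
  tendsto_finsetSum _ fun a _ => (h a).const_mul _

theorem ev_span {A : Type} (c : A →₀ ℝ) {S : Set (A → ℝ)} (h : ∀ w ∈ S, ev c w = 0) :
    ∀ w ∈ Submodule.span ℝ S, ev c w = 0 := by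
  intro w hw
  induction hw using Submodule.span_induction with
  | mem w hw => exact h w hw
  | zero => exact ev_zero_right c
  | add u v _ _ h1 h2 =>
    have : ev c (u + v) = ev c u + ev c v := by
      simp only [ev, Finsupp.sum, Pi.add_apply, mul_add, Finset.sum_add_distrib]
    rw [this, h1, h2, add_zero]
  | smul r u _ h1 =>
    have : ev c (r • u) = r * ev c u := ev_mul_right c r u
    rw [this, h1, mul_zero]

/-- nodes of the binary tree -/
abbrev J : Type := Σ n : ℕ, (Fin n → Bool)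

/-- indicator of a branch -/
noncomputable def ind (b : ℕ → Bool) (t : J) : ℝ := if (fun i : Fin t.1 => b i) = t.2 then 1 else 0

theorem ind_cont (t : J) : Continuous fun b => ind b t :=
  (continuous_of_discreteTopology (f := fun s : Fin t.1 → Bool => if s = t.2 then (1 : ℝ) else 0)).comp
    (continuous_pi fun i => continuous_apply (i : ℕ))

theorem ind_li : LinearIndependent ℝ ind := by
  classical
  rw [linearIndependent_iff']
  intro s g hg b hb
  have h1 : ∀ b' : ℕ → Bool, ∃ n, b' ≠ b → b' n ≠ b n := by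
    intro b'
    by_cases h : b' = b
    · exact ⟨0, fun hh => absurd h hh⟩
    · obtain ⟨n, hn⟩ := Function.ne_iff.1 h
      exact ⟨n, fun _ => hn⟩
  choose m hm using h1
  have h2 := congrFun hg ⟨s.sup m + 1, fun i => b i⟩
  rw [Finset.sum_apply, Finset.sum_eq_single b] at h2
  · simpa [ind] using h2
  · intro b' hb' hne
    have : ind b' ⟨s.sup m + 1, fun i => b i⟩ = 0 := by
      refine if_neg fun h => hm b' hne ?_
      exact congrFun h ⟨m b', Nat.lt_succ_of_le (Finset.le_sup hb')⟩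
    simp [this]
  · intro h
    exact absurd hb h

theorem vals (c : J →₀ ℝ) : ∃ δ M : ℝ, 0 < δ ∧ ∀ b, |ev c (ind b)| ≤ M ∧
    (ev c (ind b) ≠ 0 → δ ≤ |ev c (ind b)|) := by
  classical
  have hfin : (range fun b => ev c (ind b)).Finite := by
    refine ((c.support.powerset.image fun s => ∑ t ∈ s, c t).finite_toSet).subset ?_
    rintro _ ⟨b, rfl⟩
    simp only [Finset.coe_image, Finset.coe_powerset, mem_image]
    refine ⟨c.support.filter (fun t => (fun i : Fin t.1 => b i) = t.2),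
      Finset.coe_subset.2 (Finset.filter_subset _ _), ?_⟩
    rw [Finset.sum_filter]
    exact Finset.sum_congr rfl fun t _ => by simp [ind]
  obtain ⟨M, hM⟩ := (hfin.image abs).bddAbove
  have h2 : ∀ᶠ δ in 𝓝[>] (0 : ℝ), ∀ r ∈ range fun b => ev c (ind b), r ≠ 0 → δ ≤ |r| := by
    refine (eventually_all_finite hfin).2 fun r _ => ?_
    by_cases hr : r = 0
    · exact Eventually.of_forall fun _ h => absurd hr h
    · filter_upwards [Ioo_mem_nhdsGT (abs_pos.2 hr)] with δ hδ _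
      exact hδ.2.le
  obtain ⟨δ, h3, h4⟩ := (h2.and self_mem_nhdsWithin).exists
  exact ⟨δ, M, h4, fun b => ⟨hM ⟨_, ⟨b, rfl⟩, rfl⟩, h3 _ ⟨b, rfl⟩⟩⟩

/-- branches whose indicator lies in the span of `G` -/
def BB (G : Finset (J → ℝ)) : Set (ℕ → Bool) := {b | ind b ∈ Submodule.span ℝ (G : Set (J → ℝ))}

theorem BB_finite (G : Finset (J → ℝ)) : (BB G).Finite := by
  have : FiniteDimensional ℝ (Submodule.span ℝ (G : Set (J → ℝ))) :=
    FiniteDimensional.span_finset ℝ G
  have h : LinearIndependent ℝ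
      (fun b : BB G => (⟨ind b.1, b.2⟩ : Submodule.span ℝ (G : Set (J → ℝ)))) :=
    LinearIndependent.of_comp (Submodule.subtype _) (ind_li.comp _ Subtype.val_injective)
  exact Set.finite_coe_iff.1 h.finite

theorem pin_step (G : Finset (J → ℝ)) (K : Set (ℕ → Bool)) (hK : IsClosed K)
    (hd : ∀ b ∈ K, b ∉ BB G) (C : ℝ) :
    ∃ c : J →₀ ℝ, (∀ w ∈ G, ev c w = 0) ∧ ∀ b ∈ K, C < |ev c (ind b)| := by
  have h1 : ∃ c : J →₀ ℝ, (∀ w ∈ G, ev c w = 0) ∧ ∀ b ∈ K, ev c (ind b) ≠ 0 := by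
    refine hK.isCompact.induction_on
      (p := fun S => ∃ c : J →₀ ℝ, (∀ w ∈ G, ev c w = 0) ∧ ∀ b ∈ S, ev c (ind b) ≠ 0)
      ⟨0, fun w _ => ev_zero_left w, by simp⟩ ?_ ?_ ?_
    · rintro s t hst ⟨c, h1, h2⟩
      exact ⟨c, h1, fun b hb => h2 b (hst hb)⟩
    · rintro s t ⟨c, h1, h2⟩ ⟨c', h3, h4⟩
      obtain ⟨_, M, -, hM⟩ := vals c
      obtain ⟨δ, _, hδ, hδ'⟩ := vals c'
      have hM0 : 0 ≤ M := (abs_nonneg _).trans (hM (fun _ => true)).1
      refine ⟨c + ((M + 1) / δ) • c', fun w hw => ?_, fun b hb => ?_⟩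
      · rw [ev_add_left, ev_smul_left, h1 w hw, h3 w hw]
        simp
      · rw [ev_add_left, ev_smul_left]
        by_cases h0 : ev c' (ind b) = 0
        · rw [h0, mul_zero, add_zero]
          exact h2 b (hb.resolve_right fun hh => h4 b hh h0)
        · intro h
          have e1 : (M + 1) / δ * ev c' (ind b) = -ev c (ind b) := by linarith
          have e2 := congrArg abs e1
          rw [abs_mul, abs_neg, abs_of_pos (by positivity : 0 < (M + 1) / δ)] at e2
          have e3 := mul_le_mul_of_nonneg_left ((hδ' b).2 h0) (by positivity : 0 ≤ (M + 1) / δ)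
          rw [div_mul_cancel₀ _ hδ.ne'] at e3
          linarith [(hM b).1]
    · intro b hb
      have h2 : ∃ c : J →₀ ℝ, (∀ w ∈ G, ev c w = 0) ∧ ev c (ind b) ≠ 0 := by
        by_contra hn
        push Not at hn
        exact hd b hb (mem_span_of_ann G _ hn)
      obtain ⟨c, h3, h4⟩ := h2
      have h5 : Continuous fun b => ev c (ind b) :=
        continuous_finsetSum _ fun t _ => continuous_const.mul (ind_cont t)
      exact ⟨{b | ev c (ind b) ≠ 0},
        mem_nhdsWithin_of_mem_nhds ((isOpen_ne_fun h5 continuous_const).mem_nhds h4), c, h3,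
        fun _ h => h⟩
  obtain ⟨c, h2, h3⟩ := h1
  obtain ⟨δ, _, hδ, hδ'⟩ := vals c
  refine ⟨((|C| + 1) / δ) • c, fun w hw => by rw [ev_smul_left, h2 w hw, mul_zero], fun b hb => ?_⟩
  rw [ev_smul_left, abs_mul, abs_of_pos (by positivity : 0 < (|C| + 1) / δ)]
  have e3 := mul_le_mul_of_nonneg_left ((hδ' b).2 (h3 b hb)) (by positivity : 0 ≤ (|C| + 1) / δ)
  rw [div_mul_cancel₀ _ hδ.ne'] at e3
  linarith [le_abs_self C]

/-- a closed discrete family of points with a linear extension operator -/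
structure Ext (X : Type) [TopologicalSpace X] where
  p : J → X
  E : (J → ℝ) → X → ℝ
  cont : ∀ a, Continuous (E a)
  app : ∀ a t, E a (p t) = a t
  fin : ∀ x, ∃ c : J →₀ ℝ, ∀ a, E a x = ev c a

theorem Ext.ev_fin {X : Type} [TopologicalSpace X] (e : Ext X) (φ : X →₀ ℝ) :
    ∃ c : J →₀ ℝ, ∀ a, ev φ (e.E a) = ev c a := by
  induction φ using Finsupp.induction_linear with
  | zero => exact ⟨0, fun a => by rw [ev_zero_left, ev_zero_left]⟩
  | add f g h1 h2 =>
    obtain ⟨c, hc⟩ := h1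
    obtain ⟨c', hc'⟩ := h2
    exact ⟨c + c', fun a => by rw [ev_add_left, ev_add_left, hc, hc']⟩
  | single x r =>
    obtain ⟨c, hc⟩ := e.fin x
    exact ⟨r • c, fun a => by rw [ev_single, ev_smul_left, hc]⟩

open Classical in
/-- restriction of a finite family to the points `p t` -/
noncomputable def Ext.res {X : Type} [TopologicalSpace X] (e : Ext X) (G : Finset (X → ℝ)) :
    Finset (J → ℝ) := G.image (fun w => w ∘ e.p)

theorem pin {X : Type} [TopologicalSpace X] (hD : Dep X) (e : Ext X) (H κ : Type) [Finite κ]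
    (u : H → κ → X → ℝ) (hu : ∀ f i, Continuous (u f i)) (hu0 : ∀ f i t, u f i (e.p t) = 0)
    (l : H → ℕ → Bool) :
    ∃ W : Set (X → ℝ), W.Countable ∧ (∀ w ∈ W, Continuous w) ∧
      ∀ (f0 : H) (ψ : X →₀ ℝ) (ε : ℝ), 0 < ε → ∃ (G : Finset (X → ℝ)) (η : ℝ),
        (G : Set (X → ℝ)) ⊆ W ∧ 0 < η ∧ ∀ φ : X →₀ ℝ, (∀ w ∈ G, |ev φ w - ev ψ w| < η) →
          ∃ b ∈ BB (e.res G), ∃ᶠ f in comap l (𝓝 b),
            ∀ i, |ev φ (u f i) - ev ψ (u f0 i)| < ε := by
  classical
  let u' : H → Option κ → X → ℝ := fun f i => i.elim (e.E (ind (l f))) (u f)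
  have hu' : ∀ f i, Continuous (u' f i) := by
    intro f i
    cases i
    · exact e.cont _
    · exact hu f _
  choose W hW1 hW2 hW3 using fun q : (κ → ℚ) × ℚ × ℕ => hD H (Option κ) u' hu'
    (fun i => i.elim 0 (fun i => (q.1 i : ℝ))) (fun i => i.elim (q.2.2 : ℝ) (fun _ => (q.2.1 : ℝ)))
  refine ⟨⋃ q, W q, countable_iUnion hW1, fun w hw => ?_, fun f0 ψ ε hε => ?_⟩
  · obtain ⟨q, hq⟩ := mem_iUnion.1 hw
    exact hW2 q w hq
  obtain ⟨r, hr0, hr⟩ := exists_rat_btwn (half_pos hε)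
  choose a ha using fun i => exists_rat_near (ev ψ (u f0 i)) hr0
  obtain ⟨R, hR⟩ := exists_nat_gt |ev ψ (e.E (ind (l f0)))|
  obtain ⟨G, η, h1, h2, h3⟩ := hW3 (a, r, R) ψ ⟨f0, fun i => by
    cases i
    · simpa [u'] using hR
    · exact ha _⟩
  refine ⟨G, η, h1.trans (subset_iUnion W _), h2, fun φ hφ => ?_⟩
  by_contra hn
  push Not at hn
  have h4 : ∀ b ∈ BB (e.res G), ∃ N : Set (ℕ → Bool), IsOpen N ∧ b ∈ N ∧
      ∀ f, l f ∈ N → ∃ i, ε ≤ |ev φ (u f i) - ev ψ (u f0 i)| := by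
    intro b hb
    obtain ⟨N, hN, h5⟩ := mem_comap.1 (hn b hb)
    obtain ⟨N', h6, h7, h8⟩ := mem_nhds_iff.1 hN
    exact ⟨N', h7, h8, fun f hf => h5 (h6 hf)⟩
  choose! N hN1 hN2 hN3 using h4
  obtain ⟨cφ, hcφ⟩ := e.ev_fin φ
  obtain ⟨_, M, -, hM⟩ := vals cφ
  obtain ⟨c, hc1, hc2⟩ := pin_step (e.res G) (⋃ b ∈ BB (e.res G), N b)ᶜ
    (isOpen_biUnion hN1).isClosed_compl
    (fun b hb hb' => hb (mem_biUnion hb' (hN2 b hb'))) (R + M)
  obtain ⟨f, hf⟩ := h3 (φ + Finsupp.mapDomain e.p c) (fun w hw => by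
    rw [ev_add_left, ev_map, hc1 _ (Finset.mem_image_of_mem _ hw), add_zero]
    exact hφ w hw)
  have h5 := hf none
  simp only [u', Option.elim, sub_zero] at h5
  rw [ev_add_left, ev_map, hcφ, show e.E (ind (l f)) ∘ e.p = ind (l f) from
    funext fun t => e.app _ t] at h5
  have h6 : l f ∈ ⋃ b ∈ BB (e.res G), N b := by
    by_contra hh
    have h7 := hc2 _ hh
    have h8 := (hM (l f)).1
    have h9 := abs_sub (ev cφ (ind (l f)) + ev c (ind (l f))) (ev cφ (ind (l f)))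
    rw [add_sub_cancel_left] at h9
    linarith
  obtain ⟨b, hb, h7⟩ := mem_iUnion₂.1 h6
  obtain ⟨i, hi⟩ := hN3 b hb f h7
  have h8 := hf (some i)
  simp only [u', Option.elim] at h8
  rw [ev_add_left, ev_map, show u f i ∘ e.p = fun _ => 0 from funext fun t => hu0 f i t,
    ev_zero_right, add_zero] at h8
  have h9 := ha i
  have h10 := abs_sub_le (ev φ (u f i)) (a i) (ev ψ (u f0 i))
  rw [abs_sub_comm (a i : ℝ)] at h10
  linarith

end Pool.Agent.H294Z.Lp
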